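import Mathlib

/-!
Graded Gorenstein quotients given by a linear functional of degree `D`: duality reduces the
strong Lefschetz property to the injectivity of the maps `ℓ ^ (D - 2 i)`.
-/

open MvPolynomial Finset

namespace Pool.Agent.W515.SLP

variable {K : Type*} [Field K] {n : ℕ}

/-- `g` is in the annihilator ideal of the functional `φ` -/
def AnnP (φ : MvPolynomial (Fin n) K →ₗ[K] K) (g : MvPolynomial (Fin n) K) : Prop :=
  ∀ h, φ (g * h) = 0

/-- the functional lives in degree `D` -/
def Deg (φ : MvPolynomial (Fin n) K →ₗ[K] K) (D : ℕ) : Prop :=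
  ∀ i, i ≠ D → ∀ g : MvPolynomial (Fin n) K, g.IsHomogeneous i → φ g = 0

variable {φ : MvPolynomial (Fin n) K →ₗ[K] K} {D : ℕ}

lemma AnnP.mul_right {g : MvPolynomial (Fin n) K} (hg : AnnP φ g) (h : MvPolynomial (Fin n) K) :
    AnnP φ (g * h) := by
  intro x
  rw [mul_assoc]
  exact hg _

lemma AnnP.mul_left {g : MvPolynomial (Fin n) K} (hg : AnnP φ g) (h : MvPolynomial (Fin n) K) :
    AnnP φ (h * g) := by
  rw [mul_comm]
  exact hg.mul_right h

lemma annP_zero : AnnP φ 0 := by
  intro x
  rw [zero_mul, map_zero]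

lemma AnnP.add {g g' : MvPolynomial (Fin n) K} (hg : AnnP φ g) (hg' : AnnP φ g') :
    AnnP φ (g + g') := by
  intro x
  rw [add_mul, map_add, hg, hg', add_zero]

lemma AnnP.sub {g g' : MvPolynomial (Fin n) K} (hg : AnnP φ g) (hg' : AnnP φ g') :
    AnnP φ (g - g') := by
  intro x
  rw [sub_mul, map_sub, hg, hg', sub_zero]

lemma annP_of_homog (hφ : Deg φ D) {i : ℕ} (hi : i ≤ D) {g : MvPolynomial (Fin n) K}
    (hg : g.IsHomogeneous i)
    (h : ∀ v : MvPolynomial (Fin n) K, v.IsHomogeneous (D - i) → φ (g * v) = 0) : AnnP φ g := by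
  intro x
  rw [← sum_homogeneousComponent x, Finset.mul_sum, map_sum]
  apply Finset.sum_eq_zero
  intro j _
  by_cases hj : j = D - i
  · subst hj
    exact h _ (homogeneousComponent_isHomogeneous _ _)
  · apply hφ (i + j) (by omega)
    exact hg.mul (homogeneousComponent_isHomogeneous _ _)

lemma annP_of_gt (hφ : Deg φ D) {i : ℕ} (hi : D < i) {g : MvPolynomial (Fin n) K}
    (hg : g.IsHomogeneous i) : AnnP φ g := by
  intro x
  rw [← sum_homogeneousComponent x, Finset.mul_sum, map_sum]
  apply Finset.sum_eq_zero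
  intro j _
  apply hφ (i + j) (by omega)
  exact hg.mul (homogeneousComponent_isHomogeneous _ _)

/-- strong Lefschetz condition in the middle: `ℓ ^ (D - 2 i) : A_i → A_{D - i}` is injective -/
def PCond (φ : MvPolynomial (Fin n) K →ₗ[K] K) (D i : ℕ) (ℓ : MvPolynomial (Fin n) K) : Prop :=
  ∀ u : MvPolynomial (Fin n) K, u.IsHomogeneous i →
    (∀ v : MvPolynomial (Fin n) K, v.IsHomogeneous i → φ (ℓ ^ (D - 2 * i) * u * v) = 0) →
    AnnP φ u

lemma inj_of_PCond {ℓ : MvPolynomial (Fin n) K} {i k : ℕ} (h2 : 2 * i + k ≤ D)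
    (hP : PCond φ D i ℓ) {g : MvPolynomial (Fin n) K} (hg : g.IsHomogeneous i)
    (h : AnnP φ (ℓ ^ k * g)) : AnnP φ g := by
  apply hP g hg
  intro v _
  have h3 : ℓ ^ (D - 2 * i) * g * v = (ℓ ^ k * g) * (ℓ ^ (D - 2 * i - k) * v) := by
    have : ℓ ^ (D - 2 * i) = ℓ ^ k * ℓ ^ (D - 2 * i - k) := by
      rw [← pow_add]
      congr 1
      omega
    rw [this]; ring
  rw [h3]
  exact h _

theorem slp_of_P (hφ : Deg φ D) {ℓ : MvPolynomial (Fin n) K} (hℓ : ℓ.IsHomogeneous 1)
    (hP : ∀ i, 2 * i ≤ D → PCond φ D i ℓ) (i k : ℕ) :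
    (∀ g ∈ homogeneousSubmodule (Fin n) K i, AnnP φ (ℓ ^ k * g) → AnnP φ g) ∨
    (∀ h ∈ homogeneousSubmodule (Fin n) K (i + k), ∃ g ∈ homogeneousSubmodule (Fin n) K i,
      AnnP φ (h - ℓ ^ k * g)) := by
  by_cases h1 : 2 * i + k ≤ D
  · left
    intro g hg h
    exact inj_of_PCond h1 (hP i (by omega)) hg h
  · right
    intro h hh
    by_cases h2 : D < i + k
    · refine ⟨0, Submodule.zero_mem _, ?_⟩
      rw [mul_zero, sub_zero]
      exact annP_of_gt hφ h2 hh
    · -- duality
      set i' := D - (i + k) with hi'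
      haveI : Module.Finite K (homogeneousSubmodule (Fin n) K i') :=
        Module.Finite.iff_fg.2 (homogeneousSubmodule_fg _ _ i')
      let Λ : homogeneousSubmodule (Fin n) K i →ₗ[K]
          Module.Dual K (homogeneousSubmodule (Fin n) K i') :=
        LinearMap.mk₂ K (fun g u => φ (ℓ ^ k * (g : MvPolynomial (Fin n) K) *
          (u : MvPolynomial (Fin n) K)))
          (by intro a b c; simp [mul_add, add_mul])
          (by intro a b c; simp)
          (by intro a b c; simp [mul_add])
          (by intro a b c; simp)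
      let ψ : Module.Dual K (homogeneousSubmodule (Fin n) K i') :=
        { toFun := fun u => φ (h * (u : MvPolynomial (Fin n) K))
          map_add' := by intro a b; simp [mul_add]
          map_smul' := by intro a b; simp }
      have hmem : ψ ∈ LinearMap.range Λ := by
        rw [← Subspace.dualCoannihilator_dualAnnihilator_eq (W := LinearMap.range Λ)]
        rw [Submodule.mem_dualAnnihilator]
        intro u hu
        rw [Submodule.mem_dualCoannihilator] at hu
        have hu2 : ∀ g : MvPolynomial (Fin n) K, g.IsHomogeneous i →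
            φ (ℓ ^ k * g * (u : MvPolynomial (Fin n) K)) = 0 := by
          intro g hg
          exact hu (Λ ⟨g, hg⟩) ⟨_, rfl⟩
        have hu3 : AnnP φ (ℓ ^ k * (u : MvPolynomial (Fin n) K)) := by
          apply annP_of_homog hφ (i := k + i') (by omega)
          · have := (hℓ.pow k).mul u.2
            simpa using this
          · intro v hv
            have h4 : D - (k + i') = i := by omega
            rw [h4] at hv
            have h5 := hu2 v hv
            rw [← h5]
            congr 1
            ring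
        have hu4 : AnnP φ (u : MvPolynomial (Fin n) K) :=
          inj_of_PCond (by omega) (hP i' (by omega)) u.2 hu3
        change φ (h * (u : MvPolynomial (Fin n) K)) = 0
        rw [mul_comm]
        exact hu4 h
      obtain ⟨g, hg⟩ := hmem
      refine ⟨g, g.2, ?_⟩
      apply annP_of_homog hφ (i := i + k) (by omega)
      · apply IsHomogeneous.sub hh
        have := (hℓ.pow k).mul g.2
        rw [one_mul, add_comm] at this
        exact this
      · intro v hv
        have h6 := LinearMap.congr_fun hg ⟨v, hv⟩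
        have h7 : φ (ℓ ^ k * (g : MvPolynomial (Fin n) K) * v) = φ (h * v) := h6
        rw [sub_mul, map_sub, h7, sub_self]

end Pool.Agent.W515.SLP
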