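import Pool.Agent.W515.SLP.Gram
import Pool.Agent.W515.SLP.Ann

/-!
Points, interpolation and generic linear forms.
-/

open MvPolynomial Finset

namespace Pool.Agent.W515.SLP

set_option linter.unusedSectionVars false

/-- the linear form attached to a vector -/
noncomputable def lin {R : Type*} [CommRing R] {n : ℕ} (a : Fin n → R) : MvPolynomial (Fin n) R :=
  ∑ i, C (a i) * X i

lemma lin_hom {R : Type*} [CommRing R] {n : ℕ} (a : Fin n → R) : (lin a).IsHomogeneous 1 := by
  apply IsHomogeneous.sum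
  intro i _
  exact isHomogeneous_C_mul_X _ _

lemma eval_lin {R : Type*} [CommRing R] {n : ℕ} (a b : Fin n → R) :
    eval b (lin a) = ∑ i, a i * b i := by
  simp [lin]

lemma aeval_lin {K k : Type*} [Field K] [Field k] [Algebra K k] {n : ℕ} (a : Fin n → K)
    (b : Fin n → k) : aeval b (lin a) = ∑ i, algebraMap K k (a i) * b i := by
  simp [lin]

lemma lin_ne_zero {R : Type*} [CommRing R] {n : ℕ} (a : Fin n → R) (ha : a ≠ 0) : lin a ≠ 0 := by
  classical
  intro h
  apply ha
  funext i
  have h1 : coeff (Finsupp.single i 1) (lin a) = 0 := by rw [h]; simp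
  rw [lin, coeff_sum] at h1
  rw [Finset.sum_eq_single i] at h1
  · simpa [coeff_C_mul, coeff_X] using h1
  · intro j _ hj
    rw [coeff_C_mul, coeff_X, if_neg, mul_zero]
    intro h2
    exact hj (Finsupp.single_left_injective one_ne_zero h2)
  · intro h2
    exact absurd (Finset.mem_univ _) h2

/-- a nonzero polynomial does not vanish at all points with coordinates in an infinite subfield -/
lemma exists_avoid {K k : Type*} [Field K] [CharZero K] [Field k] [Algebra K k] {n : ℕ}
    (P : MvPolynomial (Fin n) k) (hP : P ≠ 0) :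
    ∃ a : Fin n → K, eval (fun i => algebraMap K k (a i)) P ≠ 0 := by
  by_contra hcon
  push Not at hcon
  apply hP
  apply MvPolynomial.funext_set (fun _ => Set.range (algebraMap K k))
  · intro _
    exact Set.infinite_range_of_injective (algebraMap K k).injective
  · intro x hx
    rw [map_zero]
    have h1 : ∀ i, ∃ a, algebraMap K k a = x i := fun i => hx i (Set.mem_univ i)
    choose a ha using h1
    have h2 := hcon a
    have h3 : (fun i => algebraMap K k (a i)) = x := funext ha
    rw [h3] at h2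
    exact h2

section pts

variable {k : Type*} [Field k] [CharZero k] {n e : ℕ}

/-- nonzero and pairwise non proportional vectors -/
def Gen (p : Fin e → Fin n → k) : Prop :=
  (∀ j, p j ≠ 0) ∧ ∀ j l, j ≠ l → ∃ a b, p j a * p l b ≠ p j b * p l a

lemma exists_interp {p : Fin e → Fin n → k} (hp : Gen p) (j0 : Fin e) {t : ℕ} (ht : e - 1 ≤ t) :
    ∃ g : MvPolynomial (Fin n) k, g.IsHomogeneous t ∧ eval (p j0) g ≠ 0 ∧
      ∀ j, j ≠ j0 → eval (p j) g = 0 := by
  classical
  have h1 : ∀ j, ∃ m : MvPolynomial (Fin n) k, m.IsHomogeneous 1 ∧ eval (p j0) m ≠ 0 ∧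
      (j ≠ j0 → eval (p j) m = 0) := by
    intro j
    by_cases hj : j = j0
    · obtain ⟨a, ha⟩ : ∃ a, p j0 a ≠ 0 := by
        by_contra hcon
        push Not at hcon
        exact hp.1 j0 (funext hcon)
      refine ⟨X a, isHomogeneous_X _ _, by simpa using ha, fun h => absurd hj h⟩
    · obtain ⟨a, b, hab⟩ := hp.2 j j0 hj
      refine ⟨C (p j a) * X b - C (p j b) * X a,
        (isHomogeneous_C_mul_X _ _).sub (isHomogeneous_C_mul_X _ _), ?_, ?_⟩
      · simp only [map_sub, map_mul, eval_C, eval_X]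
        exact sub_ne_zero.2 hab
      · intro _
        simp only [map_sub, map_mul, eval_C, eval_X]
        ring
  choose m hm1 hm2 hm3 using h1
  refine ⟨(∏ j ∈ univ.erase j0, m j) * (m j0) ^ (t - (e - 1)), ?_, ?_, ?_⟩
  · have h2 := (IsHomogeneous.prod (univ.erase j0) m (fun _ => 1) (fun j _ => hm1 j)).mul
      ((hm1 j0).pow (t - (e - 1)))
    have h3 : ∑ j ∈ univ.erase j0, 1 + 1 * (t - (e - 1)) = t := by
      rw [Finset.sum_const, Finset.card_erase_of_mem (Finset.mem_univ _), Finset.card_univ,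
        Fintype.card_fin]
      simp only [smul_eq_mul, mul_one, one_mul]
      omega
    rw [h3] at h2
    exact h2
  · rw [map_mul, map_prod, map_pow]
    apply mul_ne_zero
    · rw [Finset.prod_ne_zero_iff]
      intro j _
      exact hm2 j
    · exact pow_ne_zero _ (hm2 j0)
  · intro j hj
    rw [map_mul, map_prod]
    rw [Finset.prod_eq_zero (Finset.mem_erase.2 ⟨hj, Finset.mem_univ j⟩) (hm3 j hj), zero_mul]

lemma prod_lin_ne_zero {p : Fin e → Fin n → k} (hp : Gen p) : ∏ j, lin (p j) ≠ 0 := by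
  rw [Finset.prod_ne_zero_iff]
  intro j _
  exact lin_ne_zero _ (hp.1 j)

/-- a normalised pencil of linear forms -/
lemma exists_pencil {p : Fin e → Fin n → k} (hp : Gen p) :
    ∃ a b : Fin n → k, ∃ α : Fin e → k, Function.Injective α ∧
      (∀ j, ∑ i, p j i * a i ≠ 0) ∧
      ∀ j, ∑ i, p j i * b i = (∑ i, p j i * a i) * α j := by
  classical
  obtain ⟨a, ha⟩ := exists_avoid (K := k) _ (prod_lin_ne_zero hp)
  have ha2 : ∀ j, ∑ i, p j i * a i ≠ 0 := by
    intro j
    rw [map_prod, Finset.prod_ne_zero_iff] at ha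
    have := ha j (Finset.mem_univ _)
    rw [eval_lin] at this
    simpa using this
  set A : Fin e → k := fun j => ∑ i, p j i * a i with hA
  have hne : ∏ x ∈ (univ : Finset (Fin e × Fin e)).filter (fun x => x.1 ≠ x.2),
      lin (fun i => A x.2 * p x.1 i - A x.1 * p x.2 i) ≠ 0 := by
    rw [Finset.prod_ne_zero_iff]
    intro x hx
    apply lin_ne_zero
    intro h0
    obtain ⟨c, d, hcd⟩ := hp.2 x.1 x.2 (Finset.mem_filter.1 hx).2
    apply hcd
    have h1 : A x.2 * p x.1 c = A x.1 * p x.2 c := sub_eq_zero.1 (congrFun h0 c)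
    have h2 : A x.2 * p x.1 d = A x.1 * p x.2 d := sub_eq_zero.1 (congrFun h0 d)
    have h3 : A x.2 * (p x.1 c * p x.2 d) = A x.2 * (p x.1 d * p x.2 c) := by
      linear_combination (p x.2 d) * h1 - (p x.2 c) * h2
    exact mul_left_cancel₀ (ha2 x.2) h3
  obtain ⟨b, hb⟩ := exists_avoid (K := k) _ hne
  rw [map_prod, Finset.prod_ne_zero_iff] at hb
  refine ⟨a, b, fun j => (∑ i, p j i * b i) / A j, ?_, ha2, ?_⟩
  · intro j l hjl
    by_contra hne2
    have h4 := hb (j, l) (Finset.mem_filter.2 ⟨Finset.mem_univ _, hne2⟩)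
    apply h4
    rw [eval_lin]
    simp only [Algebra.algebraMap_self, RingHom.id_apply]
    simp only at hjl
    rw [div_eq_div_iff (ha2 j) (ha2 l)] at hjl
    have h5 : ∑ i, (A l * p j i - A j * p l i) * b i
        = A l * ∑ i, p j i * b i - A j * ∑ i, p l i * b i := by
      rw [Finset.mul_sum, Finset.mul_sum, ← Finset.sum_sub_distrib]
      apply Finset.sum_congr rfl
      intro i _
      ring
    rw [h5]
    linear_combination hjl
  · intro j
    simp only
    rw [mul_div_cancel₀ _ (ha2 j)]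

end pts

lemma choose_le (m : ℕ) : ∀ h, (m + 1).choose h ≤ 2 ^ m := by
  induction m with
  | zero =>
    intro h
    rcases h with _ | _ | h
    · simp
    · simp
    · rw [Nat.choose_eq_zero_of_lt (by omega)]; simp
  | succ m ih =>
    intro h
    rcases h with _ | h
    · simp [Nat.one_le_two_pow]
    · rw [Nat.choose_succ_succ, pow_succ]
      have h1 := ih h
      have h2 := ih (h + 1)
      simp only [Nat.succ_eq_add_one] at *
      omega

lemma num_bound {e D i : ℕ} (h : ℕ) (hD : 4 ^ (e - 1) ≤ D) (hi : i + 1 < e) :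
    (e.choose h - 1) ^ 2 ≤ D - 2 * i := by
  obtain ⟨m, rfl⟩ : ∃ m, e = m + 1 := ⟨e - 1, by omega⟩
  have h1 := choose_le m h
  have h2 : m + 1 ≤ 2 ^ m := Nat.lt_two_pow_self
  simp only [Nat.add_sub_cancel] at hD
  have h3 : (4 : ℕ) ^ m = 2 ^ m * 2 ^ m := by
    rw [← mul_pow]
    norm_num
  rw [h3] at hD
  set x := 2 ^ m with hx
  have h4 : ((m + 1).choose h - 1) ^ 2 ≤ (x - 1) ^ 2 := Nat.pow_le_pow_left (by omega) 2
  refine h4.trans ?_
  obtain ⟨y, hy⟩ : ∃ y, x = y + 1 := ⟨x - 1, by omega⟩
  rw [hy] at hD h2 ⊢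
  simp only [Nat.add_sub_cancel]
  have h5 : y ^ 2 + 2 * i ≤ D := by nlinarith
  omega

end Pool.Agent.W515.SLP
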