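import Pool.Agent.W515.SLP.Bez2
import Pool.Agent.W515.SLP.Pts

/-!
Bezout inequality for the number of common zeros of all but one member of a homogeneous system of
parameters.
-/

open MvPolynomial Finset

namespace Pool.Agent.W515.SLP

set_option linter.unusedSectionVars false

variable {k : Type} [Field k] [CharZero k] {m : ℕ}

lemma exists_separating {M n : ℕ} (y : Fin M → Fin n → k) (hy : Function.Injective y) :
    ∃ b : Fin n → k, Function.Injective (fun j => ∑ i, b i * y j i) := by
  classical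
  have hne : ∏ x ∈ (univ : Finset (Fin M × Fin M)).filter (fun x => x.1 ≠ x.2),
      lin (fun i => y x.1 i - y x.2 i) ≠ 0 := by
    rw [Finset.prod_ne_zero_iff]
    intro x hx
    apply lin_ne_zero
    intro h0
    apply (Finset.mem_filter.1 hx).2
    apply hy
    funext i
    exact sub_eq_zero.1 (congrFun h0 i)
  obtain ⟨b, hb⟩ := exists_avoid (K := k) _ hne
  rw [map_prod, Finset.prod_ne_zero_iff] at hb
  refine ⟨b, ?_⟩
  intro j l hjl
  by_contra hne2
  apply hb (j, l) (Finset.mem_filter.2 ⟨Finset.mem_univ _, hne2⟩)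
  rw [eval_lin]
  simp only [Algebra.algebraMap_self, RingHom.id_apply]
  simp only at hjl
  have h5 : ∑ i, (y j i - y l i) * b i = ∑ i, b i * y j i - ∑ i, b i * y l i := by
    rw [← Finset.sum_sub_distrib]
    apply Finset.sum_congr rfl
    intro i _
    ring
  rw [h5, hjl, sub_self]

/-- points with the same values of a homogeneous system of parameters -/
lemma fibre_le {M : ℕ} {g : Fin m → MvPolynomial (Fin m) k} {d : Fin m → ℕ}
    (hg : ∀ i, (g i).IsHomogeneous (d i)) (hd : ∀ i, 1 ≤ d i) {s : ℕ}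
    (hs : ∀ x : MvPolynomial (Fin m) k, x.IsHomogeneous s → x ∈ Ideal.span (Set.range g))
    (y : Fin M → Fin m → k) (hy : Function.Injective y) (γ : Fin m → k)
    (hγ : ∀ j i, eval (y j) (g i) = γ i) : M ≤ ∏ i, d i := by
  classical
  rcases Nat.eq_zero_or_pos M with rfl | hM
  · exact Nat.zero_le _
  obtain ⟨b, hb⟩ := exists_separating y hy
  obtain ⟨hmon, hdeg⟩ := natDegree_minpoly_le hg hd hs (lin b) (lin_hom b)
  let θ : Fin M → (Algebra.adjoin k (Set.range g) →ₐ[k] k) :=
    fun j => (aeval (y j)).comp (Algebra.adjoin k (Set.range g)).val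
  have hθ : ∀ j, θ j = θ ⟨0, hM⟩ := by
    intro j
    apply AlgHom.adjoin_ext
    rintro x ⟨i, rfl⟩
    change aeval (y j) (g i) = aeval (y ⟨0, hM⟩) (g i)
    rw [aeval_eq_eval, aeval_eq_eval]
    exact (hγ j i).trans (hγ _ i).symm
  set P := minpoly (Algebra.adjoin k (Set.range g)) (lin b) with hP
  set Q : Polynomial k := P.map (θ ⟨0, hM⟩ : Algebra.adjoin k (Set.range g) →+* k) with hQ
  have hQmon : Q.Monic := hmon.map _
  have hQdeg : Q.natDegree ≤ ∏ i, d i := by
    rw [hQ, hmon.natDegree_map]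
    exact hdeg
  have hroot : ∀ j, Q.eval (∑ i, b i * y j i) = 0 := by
    intro j
    have h1 : Polynomial.aeval (lin b) P = 0 := minpoly.aeval _ _
    have h2 := congrArg (aeval (y j) : MvPolynomial (Fin m) k →ₐ[k] k).toRingHom h1
    rw [Polynomial.aeval_def, AlgHom.toRingHom_eq_coe, Polynomial.hom_eval₂, map_zero] at h2
    rw [hQ, Polynomial.eval_map, ← hθ j]
    have h3 : ((aeval (y j) : MvPolynomial (Fin m) k →ₐ[k] k) : MvPolynomial (Fin m) k →+* k)
        (lin b) = ∑ i, b i * y j i := by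
      change aeval (y j) (lin b) = _
      rw [aeval_eq_eval]
      exact eval_lin b (y j)
    rw [h3] at h2
    exact h2
  have hcard : M ≤ Q.roots.toFinset.card := by
    have h4 : ((univ : Finset (Fin M)).image (fun j => ∑ i, b i * y j i)).card = M := by
      rw [Finset.card_image_of_injective _ hb]
      simp
    rw [← h4]
    apply Finset.card_le_card
    intro x hx
    rw [Finset.mem_image] at hx
    obtain ⟨j, _, rfl⟩ := hx
    rw [Multiset.mem_toFinset, Polynomial.mem_roots hQmon.ne_zero]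
    exact hroot j
  exact hcard.trans ((Multiset.toFinset_card_le _).trans ((Polynomial.card_roots' Q).trans hQdeg))

lemma eval_smul_hom {n D : ℕ} {g : MvPolynomial (Fin n) k} (hg : g.IsHomogeneous D) (t : k)
    (q : Fin n → k) : eval (fun i => t * q i) g = t ^ D * eval q g := by
  rw [eval_eq', eval_eq', Finset.mul_sum]
  apply Finset.sum_congr rfl
  intro a ha
  have h2 : a.degree = D := by
    by_contra hne
    exact (mem_support_iff.1 ha) (hg.coeff_eq_zero hne)
  have h4 : ∑ i, a i = D := by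
    rw [← h2, Finsupp.degree_eq_sum]
  have h5 : ∏ i, (t * q i) ^ a i = t ^ D * ∏ i, q i ^ a i := by
    rw [← h4, ← Finset.prod_pow_eq_pow_sum, ← Finset.prod_mul_distrib]
    apply Finset.prod_congr rfl
    intro i _
    rw [mul_pow]
  rw [h5]
  ring

/-- **Bezout inequality.** -/
theorem bezout [IsAlgClosed k] {N : ℕ} {g : Fin (m + 1) → MvPolynomial (Fin (m + 1)) k}
    {d : Fin (m + 1) → ℕ}
    (hg : ∀ i, (g i).IsHomogeneous (d i)) (hd : ∀ i, 1 ≤ d i) {s : ℕ}
    (hs : ∀ x : MvPolynomial (Fin (m + 1)) k, x.IsHomogeneous s → x ∈ Ideal.span (Set.range g))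
    (z : Fin N → Fin (m + 1) → k) (hz : Gen z)
    (hzero : ∀ j (i : Fin m), eval (z j) (g i.castSucc) = 0) :
    N ≤ ∏ i : Fin m, d i.castSucc := by
  classical
  set D := d (Fin.last m) with hD
  have hDpos : 0 < D := hd _
  have hlast : ∀ j, eval (z j) (g (Fin.last m)) ≠ 0 := by
    intro j h0
    apply hz.1 j
    funext a
    have h1 := hs (X a ^ s) (by simpa using (isHomogeneous_X_pow a s))
    rw [Ideal.mem_span_range_iff_exists_fun] at h1
    obtain ⟨c, hc⟩ := h1
    have h2 := congrArg (eval (z j)) hc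
    rw [map_sum, map_pow, eval_X] at h2
    have h3 : ∑ i, eval (z j) (c i * g i) = 0 := by
      apply Finset.sum_eq_zero
      intro i _
      rw [map_mul]
      rcases Fin.eq_castSucc_or_eq_last i with ⟨i', rfl⟩ | rfl
      · rw [hzero, mul_zero]
      · rw [h0, mul_zero]
    rw [h3] at h2
    exact eq_zero_of_pow_eq_zero h2.symm
  have ht : ∀ j, ∃ t : k, t ^ D = (eval (z j) (g (Fin.last m)))⁻¹ := fun j =>
    IsAlgClosed.exists_pow_nat_eq _ hDpos
  choose t ht using ht
  have ht0 : ∀ j, t j ≠ 0 := by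
    intro j h0
    have := ht j
    rw [h0, zero_pow hDpos.ne'] at this
    exact (inv_ne_zero (hlast j)) this.symm
  haveI : NeZero (D : k) := ⟨by exact_mod_cast hDpos.ne'⟩
  obtain ⟨ζ, hζ⟩ : ∃ ζ : k, IsPrimitiveRoot ζ D := HasEnoughRootsOfUnity.exists_primitiveRoot k D
  have hζ0 : ζ ≠ 0 := hζ.ne_zero hDpos.ne'
  -- the points
  let eqv : Fin (N * D) ≃ Fin N × Fin D := finProdFinEquiv.symm
  let y : Fin (N * D) → Fin (m + 1) → k := fun x i =>
    (ζ ^ ((eqv x).2 : ℕ) * t (eqv x).1) * z (eqv x).1 i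
  have hy : Function.Injective y := by
    intro x x' hxx
    apply eqv.injective
    have hc0 : ∀ x, ζ ^ ((eqv x).2 : ℕ) * t (eqv x).1 ≠ 0 := fun x =>
      mul_ne_zero (pow_ne_zero _ hζ0) (ht0 _)
    have h1 : (eqv x).1 = (eqv x').1 := by
      by_contra hne
      obtain ⟨a, b, hab⟩ := hz.2 _ _ hne
      apply hab
      have e1 := congrFun hxx a
      have e2 := congrFun hxx b
      simp only [y] at e1 e2
      have h2 : (ζ ^ ((eqv x).2 : ℕ) * t (eqv x).1) * (z (eqv x).1 a * z (eqv x').1 b)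
          = (ζ ^ ((eqv x).2 : ℕ) * t (eqv x).1) * (z (eqv x).1 b * z (eqv x').1 a) := by
        linear_combination (z (eqv x').1 b) * e1 - (z (eqv x').1 a) * e2
      exact mul_left_cancel₀ (hc0 x) h2
    apply Prod.ext h1
    obtain ⟨a, ha⟩ : ∃ a, z (eqv x).1 a ≠ 0 := by
      by_contra hcon
      push Not at hcon
      exact hz.1 _ (funext hcon)
    have e1 := congrFun hxx a
    simp only [y] at e1
    rw [← h1] at e1
    have e2 := mul_right_cancel₀ ha e1
    have e3 := mul_right_cancel₀ (ht0 _) e2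
    have e4 := hζ.pow_inj (eqv x).2.2 (eqv x').2.2 e3
    exact Fin.ext e4
  have hval : ∀ x i, eval (y x) (g i) = if i = Fin.last m then 1 else 0 := by
    intro x i
    have h1 : eval (y x) (g i) = (ζ ^ ((eqv x).2 : ℕ) * t (eqv x).1) ^ d i *
        eval (z (eqv x).1) (g i) := eval_smul_hom (hg i) _ _
    rw [h1]
    rcases Fin.eq_castSucc_or_eq_last i with ⟨i', rfl⟩ | rfl
    · rw [hzero, mul_zero, if_neg (Fin.castSucc_lt_last i').ne]
    · rw [if_pos rfl, mul_pow, ← pow_mul, mul_comm ((eqv x).2 : ℕ), pow_mul, ← hD, hζ.pow_eq_one,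
        one_pow, one_mul, ht, inv_mul_cancel₀ (hlast _)]
  have hfin := fibre_le hg hd hs y hy _ hval
  rw [Fin.prod_univ_castSucc, ← hD] at hfin
  exact Nat.le_of_mul_le_mul_right hfin hDpos

end Pool.Agent.W515.SLP
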