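import Mathlib

/-!
Finite extensions given by homogeneous systems of parameters.
-/

open MvPolynomial Finset

namespace Pool.Agent.W515.SLP

variable {k : Type} [Field k] {m : ℕ}

lemma hc_mul {R : Type*} [CommRing R] {f h : MvPolynomial (Fin m) R} {d t : ℕ}
    (hf : f.IsHomogeneous d) (hd : d ≤ t) :
    homogeneousComponent t (h * f) = homogeneousComponent (t - d) h * f := by
  conv_lhs => rw [← sum_homogeneousComponent h, Finset.sum_mul, map_sum]
  have h1 : ∀ j, homogeneousComponent t (homogeneousComponent j h * f)
      = if j = t - d then homogeneousComponent j h * f else 0 := by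
    intro j
    rw [homogeneousComponent_of_mem ((homogeneousComponent_isHomogeneous j h).mul hf)]
    by_cases hj : j = t - d
    · rw [if_pos hj, if_pos (by omega)]
    · rw [if_neg hj, if_neg (by omega)]
  simp only [h1]
  rw [Finset.sum_ite_eq']
  split_ifs with h2
  · rfl
  · rw [Finset.mem_range, not_lt] at h2
    rw [homogeneousComponent_eq_zero _ _ (by omega), zero_mul]

lemma hc_mul_lt {R : Type*} [CommRing R] {f h : MvPolynomial (Fin m) R} {d t : ℕ}
    (hf : f.IsHomogeneous d) (hd : t < d) :
    homogeneousComponent t (h * f) = 0 := by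
  conv_lhs => rw [← sum_homogeneousComponent h, Finset.sum_mul, map_sum]
  apply Finset.sum_eq_zero
  intro j _
  rw [homogeneousComponent_of_mem ((homogeneousComponent_isHomogeneous j h).mul hf),
    if_neg (by omega)]

/-- homogeneous representation of elements of an ideal generated by forms -/
lemma mem_span_hom {g : Fin m → MvPolynomial (Fin m) k} {d : Fin m → ℕ}
    (hg : ∀ i, (g i).IsHomogeneous (d i)) {x : MvPolynomial (Fin m) k} {s : ℕ}
    (hx : x.IsHomogeneous s) (hmem : x ∈ Ideal.span (Set.range g)) :
    ∃ h : Fin m → MvPolynomial (Fin m) k, (∀ i, d i ≤ s → (h i).IsHomogeneous (s - d i)) ∧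
      (∀ i, s < d i → h i = 0) ∧ x = ∑ i, h i * g i := by
  rw [Ideal.mem_span_range_iff_exists_fun] at hmem
  obtain ⟨c, hc⟩ := hmem
  refine ⟨fun i => if d i ≤ s then homogeneousComponent (s - d i) (c i) else 0, ?_, ?_, ?_⟩
  · intro i hi
    simp only [if_pos hi]
    exact homogeneousComponent_isHomogeneous _ _
  · intro i hi
    simp only
    rw [if_neg (by omega)]
  · have h1 : x = homogeneousComponent s x := (homogeneousComponent_eq_self hx).symm
    rw [h1, ← hc, map_sum]
    apply Finset.sum_congr rfl
    intro i _
    by_cases hi : d i ≤ s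
    · rw [hc_mul (hg i) hi]
      simp only [if_pos hi]
    · rw [hc_mul_lt (hg i) (by omega)]
      simp only [if_neg hi, zero_mul]

/-- the monomials of degree `< s` generate over the subalgebra generated by the forms -/
lemma mem_span_small {g : Fin m → MvPolynomial (Fin m) k} {d : Fin m → ℕ}
    (hg : ∀ i, (g i).IsHomogeneous (d i)) (hd : ∀ i, 1 ≤ d i) {s : ℕ}
    (hs : ∀ x : MvPolynomial (Fin m) k, x.IsHomogeneous s → x ∈ Ideal.span (Set.range g)) :
    ∀ t : ℕ, ∀ x : MvPolynomial (Fin m) k, x.IsHomogeneous t →
      x ∈ Submodule.span (Algebra.adjoin k (Set.range g))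
        ((fun c : Fin m →₀ ℕ => (monomial c 1 : MvPolynomial (Fin m) k)) '' {c | c.degree < s}) := by
  intro t
  induction t using Nat.strong_induction_on with
  | _ t ih =>
  intro x hx
  by_cases ht : t < s
  · rw [x.as_sum]
    apply Submodule.sum_mem
    intro c hc
    have h2 : c.degree = t := by
      by_contra hne
      exact (mem_support_iff.1 hc) (hx.coeff_eq_zero hne)
    have h3 : monomial c (coeff c x)
        = (algebraMap k (Algebra.adjoin k (Set.range g)) (coeff c x)) •
          (monomial c 1 : MvPolynomial (Fin m) k) := by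
      rw [Algebra.smul_def]
      change _ = C (coeff c x) * monomial c 1
      rw [C_mul_monomial, mul_one]
    rw [h3]
    apply Submodule.smul_mem
    apply Submodule.subset_span
    exact ⟨c, by simpa [h2] using ht, rfl⟩
  · -- large degree
    have hmem : x ∈ Ideal.span (Set.range g) := by
      rw [x.as_sum]
      apply Ideal.sum_mem
      intro c hc
      have h2 : c.degree = t := by
        by_contra hne
        exact (mem_support_iff.1 hc) (hx.coeff_eq_zero hne)
      -- split the exponent
      have hsplit : ∀ s' ≤ c.degree, ∃ c' : Fin m →₀ ℕ, c' ≤ c ∧ c'.degree = s' := by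
        intro s' hs'
        induction s' with
        | zero => exact ⟨0, zero_le, by simp⟩
        | succ s' ih2 =>
          obtain ⟨c', hc'1, hc'2⟩ := ih2 (by omega)
          have hne : c' ≠ c := by
            rintro rfl
            omega
          obtain ⟨i, hi⟩ : ∃ i, c' i < c i := by
            by_contra hcon
            push Not at hcon
            exact hne (le_antisymm hc'1 (fun i => hcon i))
          refine ⟨c' + Finsupp.single i 1, ?_, ?_⟩
          · intro j
            by_cases hj : j = i
            · subst hj
              simp only [Finsupp.add_apply, Finsupp.single_eq_same]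
              omega
            · rw [Finsupp.add_apply, Finsupp.single_eq_of_ne hj, add_zero]
              exact hc'1 j
          · rw [map_add, hc'2, Finsupp.degree_single]
      obtain ⟨c', hc'1, hc'2⟩ := hsplit s (by omega)
      have h4 : monomial c (coeff c x) = monomial (c - c') (coeff c x) * monomial c' 1 := by
        rw [monomial_mul, mul_one, tsub_add_cancel_of_le hc'1]
      rw [h4]
      apply Ideal.mul_mem_left
      exact hs _ (isHomogeneous_monomial 1 hc'2)
    obtain ⟨h, hh1, hh2, hh3⟩ := mem_span_hom hg hx hmem
    rw [hh3]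
    apply Submodule.sum_mem
    intro i _
    by_cases hi : d i ≤ t
    · have h5 := ih (t - d i) (by have := hd i; omega) (h i) (hh1 i hi)
      have h6 : h i * g i = (⟨g i, Algebra.subset_adjoin ⟨i, rfl⟩⟩ :
          Algebra.adjoin k (Set.range g)) • h i := by
        rw [Algebra.smul_def]
        change _ = g i * h i
        ring
      rw [h6]
      exact Submodule.smul_mem _ _ h5
    · rw [hh2 i (by omega), zero_mul]
      exact Submodule.zero_mem _

lemma finite_adjoin {g : Fin m → MvPolynomial (Fin m) k} {d : Fin m → ℕ}
    (hg : ∀ i, (g i).IsHomogeneous (d i)) (hd : ∀ i, 1 ≤ d i) {s : ℕ}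
    (hs : ∀ x : MvPolynomial (Fin m) k, x.IsHomogeneous s → x ∈ Ideal.span (Set.range g)) :
    Module.Finite (Algebra.adjoin k (Set.range g)) (MvPolynomial (Fin m) k) := by
  classical
  have hfin : ({c : Fin m →₀ ℕ | c.degree < s}).Finite := by
    apply Set.Finite.subset (Finset.finite_toSet
      ((Finset.range s).biUnion (fun t => (Finset.univ : Finset (Fin m)).finsuppAntidiag t)))
    intro c hc
    simp only [Finset.coe_biUnion, Set.mem_iUnion, Finset.mem_coe, Finset.mem_range]
    refine ⟨c.degree, hc, ?_⟩
    rw [Finset.mem_finsuppAntidiag]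
    refine ⟨?_, Finset.subset_univ _⟩
    rw [Finsupp.degree_eq_sum]
  refine ⟨⟨(hfin.image (fun c : Fin m →₀ ℕ => (monomial c 1 : MvPolynomial (Fin m) k))).toFinset,
    ?_⟩⟩
  rw [Set.Finite.coe_toFinset, eq_top_iff]
  intro x _
  rw [← sum_homogeneousComponent x]
  apply Submodule.sum_mem
  intro t _
  exact mem_span_small hg hd hs t _ (homogeneousComponent_isHomogeneous _ _)

lemma algInd {g : Fin m → MvPolynomial (Fin m) k} {d : Fin m → ℕ}
    (hg : ∀ i, (g i).IsHomogeneous (d i)) (hd : ∀ i, 1 ≤ d i) {s : ℕ}
    (hs : ∀ x : MvPolynomial (Fin m) k, x.IsHomogeneous s → x ∈ Ideal.span (Set.range g)) :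
    AlgebraicIndependent k g := by
  have := finite_adjoin hg hd hs
  have h1 : Algebra.IsAlgebraic (Algebra.adjoin k (Set.range g)) (MvPolynomial (Fin m) k) :=
    Algebra.IsIntegral.isAlgebraic
  refine (Algebra.IsAlgebraic.isTranscendenceBasis_of_lift_le_trdeg_of_finite k g ?_).1
  rw [MvPolynomial.trdeg_of_isDomain]
  simp

end Pool.Agent.W515.SLP
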