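import Pool.Agent.W515.SLP.Bez1

/-!
Degree bound for minimal polynomials over the subalgebra generated by a homogeneous system of
parameters.
-/

open MvPolynomial Finset

namespace Pool.Agent.W515.SLP

/-- exponents of total degree at most `T` -/
def NS (m T : ℕ) : Finset (Fin m → ℕ) :=
  (Fintype.piFinset (fun _ : Fin m => Finset.range (T + 1))).filter (fun c => ∑ i, c i ≤ T)

/-- exponents of weighted degree at most `T` -/
def MS {m : ℕ} (d : Fin m → ℕ) (T : ℕ) : Finset (Fin m → ℕ) :=
  (Fintype.piFinset (fun _ : Fin m => Finset.range (T + 1))).filter (fun c => ∑ i, d i * c i ≤ T)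

lemma mem_NS {m T : ℕ} {c : Fin m → ℕ} : c ∈ NS m T ↔ ∑ i, c i ≤ T := by
  simp only [NS, Finset.mem_filter, Fintype.mem_piFinset, Finset.mem_range]
  constructor
  · exact fun h => h.2
  · intro h
    refine ⟨fun i => ?_, h⟩
    have := Finset.single_le_sum (f := c) (fun j _ => Nat.zero_le _) (Finset.mem_univ i)
    omega

lemma mem_MS {m T : ℕ} {d : Fin m → ℕ} (hd : ∀ i, 1 ≤ d i) {c : Fin m → ℕ} :
    c ∈ MS d T ↔ ∑ i, d i * c i ≤ T := by
  simp only [MS, Finset.mem_filter, Fintype.mem_piFinset, Finset.mem_range]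
  constructor
  · exact fun h => h.2
  · intro h
    refine ⟨fun i => ?_, h⟩
    have h1 := Finset.single_le_sum (f := fun i => d i * c i) (fun j _ => Nat.zero_le _)
      (Finset.mem_univ i)
    have h2 := Nat.mul_le_mul_right (c i) (hd i)
    omega

lemma card_NS_le {m T : ℕ} (d : Fin m → ℕ) (hd : ∀ i, 1 ≤ d i) :
    (NS m T).card ≤ (∏ i, d i) * (MS d T).card := by
  classical
  have h1 : ((MS d T) ×ˢ (Fintype.piFinset (fun i : Fin m => Finset.range (d i)))).card
      = (∏ i, d i) * (MS d T).card := by
    rw [Finset.card_product, Fintype.card_piFinset]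
    simp only [Finset.card_range]
    ring
  rw [← h1]
  apply Finset.card_le_card_of_injOn (fun c => (fun i => c i / d i, fun i => c i % d i))
  · intro c hc
    rw [Finset.mem_coe, mem_NS] at hc
    rw [Finset.mem_coe, Finset.mem_product]
    refine ⟨?_, ?_⟩
    · rw [mem_MS hd]
      refine le_trans (Finset.sum_le_sum (fun i _ => ?_)) hc
      exact Nat.mul_div_le _ _
    · rw [Fintype.mem_piFinset]
      intro i
      rw [Finset.mem_range]
      exact Nat.mod_lt _ (hd i)
  · intro c _ c' _ hcc
    rw [Prod.mk.injEq] at hcc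
    funext i
    have h2 := congrFun hcc.1 i
    have h3 := congrFun hcc.2 i
    rw [← Nat.div_add_mod (c i) (d i), h2, h3, Nat.div_add_mod]

lemma NS_zero_pos (m : ℕ) : 1 ≤ (NS m 0).card := by
  apply Finset.card_pos.2
  exact ⟨0, by rw [mem_NS]; simp⟩

lemma NS_le (m T : ℕ) : (NS m T).card ≤ (T + 1) ^ m := by
  refine (Finset.card_filter_le _ _).trans ?_
  rw [Fintype.card_piFinset]
  simp

lemma growth {m δ E : ℕ} (hE : 1 ≤ E) (hδ : E < δ)
    (h : ∀ T, δ * (NS m T).card ≤ E * (NS m (T + δ)).card) : False := by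
  have h1 : ∀ j, δ ^ j ≤ E ^ j * (NS m (j * δ)).card := by
    intro j
    induction j with
    | zero => simpa using NS_zero_pos m
    | succ j ih =>
      have h2 := h (j * δ)
      have h3 : (j + 1) * δ = j * δ + δ := by ring
      rw [h3]
      calc δ ^ (j + 1) = δ ^ j * δ := pow_succ _ _
        _ ≤ (E ^ j * (NS m (j * δ)).card) * δ := Nat.mul_le_mul_right _ ih
        _ = E ^ j * (δ * (NS m (j * δ)).card) := by ring
        _ ≤ E ^ j * (E * (NS m (j * δ + δ)).card) := Nat.mul_le_mul_left _ h2
        _ = _ := by ring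
  have hEr : (0 : ℝ) < E := by exact_mod_cast hE
  set r : ℝ := (δ : ℝ) / E with hr
  have hr1 : 1 < r := by
    rw [hr, one_lt_div hEr]
    exact_mod_cast hδ
  have h4 : ∀ j : ℕ, 1 ≤ j → 1 ≤ ((δ : ℝ) + 1) ^ m * ((j : ℝ) ^ m / r ^ j) := by
    intro j hj
    have h5 : δ ^ j ≤ E ^ j * (j * δ + 1) ^ m := (h1 j).trans (Nat.mul_le_mul_left _ (NS_le _ _))
    have h6 : (δ : ℝ) ^ j ≤ (E : ℝ) ^ j * ((j : ℝ) * δ + 1) ^ m := by exact_mod_cast h5
    have hj1 : (1 : ℝ) ≤ j := by exact_mod_cast hj
    have h7 : ((j : ℝ) * δ + 1) ^ m ≤ (((δ : ℝ) + 1) * j) ^ m := by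
      apply pow_le_pow_left₀ (by positivity)
      nlinarith
    have h8 : r ^ j ≤ ((δ : ℝ) + 1) ^ m * (j : ℝ) ^ m := by
      rw [hr, div_pow, div_le_iff₀ (by positivity)]
      calc (δ : ℝ) ^ j ≤ (E : ℝ) ^ j * ((j : ℝ) * δ + 1) ^ m := h6
        _ ≤ (E : ℝ) ^ j * (((δ : ℝ) + 1) * j) ^ m := by gcongr
        _ = _ := by rw [mul_pow]; ring
    have hrp : 0 < r ^ j := by positivity
    rw [← mul_div_assoc, le_div_iff₀ hrp, one_mul]
    exact h8
  have h9 := tendsto_pow_const_div_const_pow_of_one_lt m hr1
  have h10 := h9.const_mul (((δ : ℝ) + 1) ^ m)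
  rw [mul_zero] at h10
  have h11 := (h10.eventually (gt_mem_nhds (show (0 : ℝ) < 1 by norm_num))).and
    (Filter.eventually_ge_atTop 1)
  obtain ⟨j, hj1, hj2⟩ := h11.exists
  have := h4 j hj2
  linarith

variable {k : Type} [Field k] {m : ℕ}

/-- a set of polynomials supported in a finite set, linearly independent, is small -/
lemma card_le_of_li {ι : Type*} [Fintype ι] (v : ι → MvPolynomial (Fin m) k)
    (hv : LinearIndependent k v) (U : ℕ) (hU : ∀ x, (v x).totalDegree ≤ U) :
    Fintype.card ι ≤ (NS m U).card := by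
  classical
  let L : MvPolynomial (Fin m) k →ₗ[k] (NS m U → k) :=
    { toFun := fun p c => coeff (Finsupp.equivFunOnFinite.symm (c : Fin m → ℕ)) p
      map_add' := by intro a b; funext c; simp
      map_smul' := by intro a b; funext c; simp }
  have h1 : LinearIndependent k (L ∘ v) := by
    apply hv.map
    rw [Submodule.disjoint_def]
    intro x hx1 hx2
    have h2 : x.totalDegree ≤ U := by
      have h3 : Submodule.span k (Set.range v) ≤ restrictTotalDegree (Fin m) k U := by
        rw [Submodule.span_le]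
        rintro _ ⟨y, rfl⟩
        rw [SetLike.mem_coe, mem_restrictTotalDegree]
        exact hU y
      have h4 := h3 hx1
      rwa [mem_restrictTotalDegree] at h4
    ext c
    rw [coeff_zero]
    by_cases hc : ∑ i, c i ≤ U
    · have h5 := congrFun (LinearMap.mem_ker.1 hx2) ⟨c, mem_NS.2 hc⟩
      have h6 : coeff (Finsupp.equivFunOnFinite.symm (c : Fin m → ℕ)) x = 0 := h5
      have h7 : Finsupp.equivFunOnFinite.symm (c : Fin m → ℕ) = c := by
        ext i
        simp
      rw [h7] at h6
      exact h6
    · apply coeff_eq_zero_of_totalDegree_lt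
      have h8 : ∑ i ∈ c.support, c i = ∑ i, c i := by
        rw [← Finsupp.degree_eq_sum]
        rfl
      rw [h8]
      omega
  have h9 := h1.fintype_card_le_finrank
  simpa using h9

variable {g : Fin m → MvPolynomial (Fin m) k} {d : Fin m → ℕ}

/-- the degree of the minimal polynomial of a linear form is at most the product of the
degrees -/
theorem natDegree_minpoly_le (hg : ∀ i, (g i).IsHomogeneous (d i)) (hd : ∀ i, 1 ≤ d i) {s : ℕ}
    (hs : ∀ x : MvPolynomial (Fin m) k, x.IsHomogeneous s → x ∈ Ideal.span (Set.range g))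
    (ℓ : MvPolynomial (Fin m) k) (hℓ : ℓ.IsHomogeneous 1) :
    (minpoly (Algebra.adjoin k (Set.range g)) ℓ).Monic ∧
      (minpoly (Algebra.adjoin k (Set.range g)) ℓ).natDegree ≤ ∏ i, d i := by
  classical
  have hfin := finite_adjoin hg hd hs
  have hai := algInd hg hd hs
  have hint : IsIntegral (Algebra.adjoin k (Set.range g)) ℓ := IsIntegral.of_finite _ ℓ
  have hic : IsIntegrallyClosed (Algebra.adjoin k (Set.range g)) :=
    IsIntegrallyClosed.of_equiv hai.aevalEquiv.toRingEquiv
  refine ⟨minpoly.monic hint, ?_⟩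
  by_contra hcon
  push Not at hcon
  set δ := (minpoly (Algebra.adjoin k (Set.range g)) ℓ).natDegree with hδ
  have hE : 1 ≤ ∏ i, d i := Nat.one_le_iff_ne_zero.2
    (Finset.prod_ne_zero_iff.2 (fun i _ => by have := hd i; omega))
  apply growth (m := m) hE hcon
  intro T
  have h1 := card_NS_le (T := T) d hd
  -- linear independence
  let v : Fin δ × MS d T → MvPolynomial (Fin m) k :=
    fun x => ℓ ^ (x.1 : ℕ) * ∏ i, g i ^ ((x.2 : Fin m → ℕ) i)
  have hv : LinearIndependent k v := by
    rw [Fintype.linearIndependent_iff]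
    intro c hc
    -- the polynomial
    let q : Fin δ → MvPolynomial (Fin m) k := fun a => ∑ b : MS d T,
      monomial (Finsupp.equivFunOnFinite.symm (b : Fin m → ℕ)) (c (a, b))
    let Q : Polynomial (Algebra.adjoin k (Set.range g)) :=
      ∑ a : Fin δ, Polynomial.monomial (a : ℕ) (hai.aevalEquiv (q a))
    have hQ0 : Polynomial.aeval ℓ Q = 0 := by
      rw [map_sum, ← hc, Fintype.sum_prod_type]
      apply Finset.sum_congr rfl
      intro a _
      rw [Polynomial.aeval_monomial, hai.algebraMap_aevalEquiv, map_sum, Finset.sum_mul]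
      apply Finset.sum_congr rfl
      intro b _
      rw [aeval_monomial, Finsupp.prod_fintype _ _ (fun _ => pow_zero _)]
      simp only [v]
      rw [smul_eq_C_mul, algebraMap_eq]
      have h2 : ∏ i, g i ^ (Finsupp.equivFunOnFinite.symm (b : Fin m → ℕ)) i
          = ∏ i, g i ^ ((b : Fin m → ℕ) i) := by
        apply Finset.prod_congr rfl
        intro i _
        simp
      rw [h2]
      ring
    have hQ1 : Q = 0 := by
      have h2 := minpoly.isIntegrallyClosed_dvd hint hQ0
      by_contra hQne
      have h3 := Polynomial.natDegree_le_of_dvd h2 hQne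
      have h4 : Q.natDegree ≤ δ - 1 := by
        apply Polynomial.natDegree_sum_le_of_forall_le
        intro a _
        refine (Polynomial.natDegree_monomial_le _).trans ?_
        have := a.2
        omega
      have h5 : 0 < δ := by omega
      omega
    have hq : ∀ a, q a = 0 := by
      intro a
      have h2 : Q.coeff (a : ℕ) = hai.aevalEquiv (q a) := by
        simp only [Q, Polynomial.finset_sum_coeff, Polynomial.coeff_monomial]
        rw [Finset.sum_eq_single a]
        · rw [if_pos rfl]
        · intro a' _ hne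
          rw [if_neg]
          exact fun h => hne (Fin.ext h)
        · intro h
          exact absurd (Finset.mem_univ _) h
      rw [hQ1, Polynomial.coeff_zero] at h2
      have h3 := hai.aevalEquiv.injective (h2.symm.trans (map_zero hai.aevalEquiv).symm)
      exact h3
    rintro ⟨a, b⟩
    have h2 := congrArg (coeff (Finsupp.equivFunOnFinite.symm (b : Fin m → ℕ))) (hq a)
    simp only [q, coeff_sum, coeff_monomial, coeff_zero] at h2
    rw [Finset.sum_eq_single b] at h2
    · rw [if_pos rfl] at h2
      exact h2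
    · intro b' _ hne
      rw [if_neg]
      intro h
      exact hne (Subtype.ext (Finsupp.equivFunOnFinite.symm.injective h))
    · intro h
      exact absurd (Finset.mem_univ _) h
  have hcard := card_le_of_li v hv (T + δ) (by
    rintro ⟨a, b⟩
    simp only [v]
    refine (totalDegree_mul _ _).trans ?_
    have h2 : (ℓ ^ (a : ℕ)).totalDegree ≤ δ := by
      refine (totalDegree_pow _ _).trans ?_
      have := hℓ.totalDegree_le
      have := a.2
      nlinarith
    have h3 : (∏ i, g i ^ ((b : Fin m → ℕ) i)).totalDegree ≤ T := by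
      refine (totalDegree_finset_prod _ _).trans ?_
      refine le_trans (Finset.sum_le_sum (fun i _ => ?_)) ((mem_MS hd).1 b.2)
      refine (totalDegree_pow _ _).trans ?_
      rw [mul_comm]
      exact Nat.mul_le_mul_right _ ((hg i).totalDegree_le)
    omega)
  rw [Fintype.card_prod, Fintype.card_fin, Fintype.card_coe] at hcard
  calc δ * (NS m T).card ≤ δ * ((∏ i, d i) * (MS d T).card) := Nat.mul_le_mul_left _ h1
    _ = (∏ i, d i) * (δ * (MS d T).card) := by ring
    _ ≤ _ := Nat.mul_le_mul_left _ hcard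

end Pool.Agent.W515.SLP
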