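import Pool.Agent.W515.SLP.PI

/-!
Gram matrices `∑ j, λ_j v_j v_jᵀ` with `λ_j = w_j (X + α_j) ^ N` are nonsingular for large `N`.
-/

open Polynomial Finset

namespace Pool.Agent.W515.SLP

set_option linter.unusedSectionVars false

section expand

variable {k : Type*} [Field k]

/-- coefficient attached to a map -/
noncomputable def acoef {e h : ℕ} (V : Fin e → Fin h → k) (τ : Fin h → Fin e) : k :=
  (∏ s, V (τ s) s) * (Matrix.of fun s t => V (τ s) t).det

lemma acoef_zero {e h : ℕ} (V : Fin e → Fin h → k) (τ : Fin h → Fin e)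
    (hτ : ¬ Function.Injective τ) : acoef V τ = 0 := by
  simp only [Function.Injective, not_forall] at hτ
  obtain ⟨a, b, hab, hne⟩ := hτ
  rw [acoef, Matrix.det_zero_of_row_eq hne, mul_zero]
  funext t
  simp [hab]

/-- the coefficient of a subset in the expansion of the Gram determinant -/
noncomputable def qcoef {e h : ℕ} (V : Fin e → Fin h → k) (J : Finset (Fin e)) : k :=
  ∑ τ ∈ (univ : Finset (Fin h → Fin e)).filter (fun τ => univ.image τ = J), acoef V τ

lemma det_expand {e h : ℕ} (V : Fin e → Fin h → k) {R : Type*} [CommRing R] [Algebra k R]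
    (lam : Fin e → R) :
    (Matrix.of fun s t => ∑ j, lam j * algebraMap k R (V j s * V j t)).det
      = ∑ τ : Fin h → Fin e, algebraMap k R (acoef V τ) * ∏ s, lam (τ s) := by
  classical
  have h1 : (Matrix.of fun s t => ∑ j, lam j * algebraMap k R (V j s * V j t))
      = (fun s : Fin h => ∑ j : Fin e, (lam j * algebraMap k R (V j s)) •
        (fun t => algebraMap k R (V j t))) := by
    funext s t
    simp only [Matrix.of_apply, Finset.sum_apply, Pi.smul_apply, smul_eq_mul, map_mul]
    apply Finset.sum_congr rfl
    intro j _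
    ring
  have h2 : (Matrix.of fun s t => ∑ j, lam j * algebraMap k R (V j s * V j t)).det
      = Matrix.detRowAlternating (fun s : Fin h => ∑ j : Fin e, (lam j * algebraMap k R (V j s)) •
        (fun t => algebraMap k R (V j t))) := by
    rw [← h1]; rfl
  rw [h2]
  have h3 := (Matrix.detRowAlternating (R := R) (n := Fin h)).toMultilinearMap.map_sum
    (fun (s : Fin h) (j : Fin e) => (lam j * algebraMap k R (V j s)) •
        (fun t => algebraMap k R (V j t)))
  refine h3.trans ?_
  apply Finset.sum_congr rfl
  intro τ _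
  have h4 := (Matrix.detRowAlternating (R := R) (n := Fin h)).toMultilinearMap.map_smul_univ
    (fun s => lam (τ s) * algebraMap k R (V (τ s) s)) (fun s t => algebraMap k R (V (τ s) t))
  refine h4.trans ?_
  rw [smul_eq_mul, Finset.prod_mul_distrib, acoef, map_mul, map_prod]
  have h5 : (Matrix.detRowAlternating (R := R) (n := Fin h)).toMultilinearMap
      (fun s t => algebraMap k R (V (τ s) t))
      = algebraMap k R (Matrix.of fun s t => V (τ s) t).det := by
    rw [RingHom.map_det]
    rfl
  rw [h5]
  ring

lemma gram_expand {e h : ℕ} (V : Fin e → Fin h → k) {R : Type*} [CommRing R] [Algebra k R]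
    (lam : Fin e → R) :
    (Matrix.of fun s t => ∑ j, lam j * algebraMap k R (V j s * V j t)).det
      = ∑ J ∈ powersetCard h univ, algebraMap k R (qcoef V J) * ∏ j ∈ J, lam j := by
  classical
  rw [det_expand]
  have h0 : ∑ τ : Fin h → Fin e, algebraMap k R (acoef V τ) * ∏ s, lam (τ s)
      = ∑ τ ∈ (univ : Finset (Fin h → Fin e)).filter
        (fun τ => univ.image τ ∈ powersetCard h (univ : Finset (Fin e))),
          algebraMap k R (acoef V τ) * ∏ s, lam (τ s) := by
    symm
    apply Finset.sum_subset (Finset.filter_subset _ _)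
    intro τ _ hτ
    rw [acoef_zero, map_zero, zero_mul]
    intro hinj
    apply hτ
    rw [Finset.mem_filter]
    refine ⟨Finset.mem_univ _, ?_⟩
    rw [Finset.mem_powersetCard]
    refine ⟨Finset.subset_univ _, ?_⟩
    rw [Finset.card_image_of_injective _ hinj]
    simp
  rw [h0, ← Finset.sum_fiberwise_of_maps_to (t := powersetCard h (univ : Finset (Fin e)))
    (g := fun τ : Fin h → Fin e => univ.image τ) (fun τ hτ => (Finset.mem_filter.1 hτ).2)]
  apply Finset.sum_congr rfl
  intro J hJ
  rw [qcoef, map_sum, Finset.sum_mul]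
  have hset : (filter (fun τ : Fin h → Fin e => univ.image τ = J) (filter
      (fun τ : Fin h → Fin e => univ.image τ ∈ powersetCard h (univ : Finset (Fin e))) univ))
      = filter (fun τ : Fin h → Fin e => univ.image τ = J) univ := by
    ext τ
    simp only [Finset.mem_filter, Finset.mem_univ, true_and]
    constructor
    · rintro ⟨_, h2⟩; exact h2
    · intro h2; rw [h2]; exact ⟨hJ, rfl⟩
  rw [hset]
  have hset2 : filter (fun τ : Fin h → Fin e => univ.image τ = J) univ =
      filter (fun τ : Fin h → Fin e => (Finset.image τ univ) = J) univ := rfl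
  apply Finset.sum_congr
  · ext τ
    simp
  intro τ hτ
  congr 1
  have hτ2 : univ.image τ = J := by
    have := (Finset.mem_filter.1 hτ).2
    rw [← this]
  have hinj : Set.InjOn τ (univ : Finset (Fin h)) := by
    rw [← Finset.card_image_iff, hτ2, (Finset.mem_powersetCard.1 hJ).2]
    simp
  rw [← hτ2, Finset.prod_image hinj]

lemma exists_qcoef_ne_zero {e h : ℕ} (V : Fin e → Fin h → k)
    (hV : ∀ c : Fin h → k, (∀ j, ∑ s, c s * V j s = 0) → c = 0) :
    ∃ J ∈ powersetCard h (univ : Finset (Fin e)), qcoef V J ≠ 0 := by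
  classical
  by_contra hcon
  push Not at hcon
  obtain ⟨κ, a, ha, hspan, hli⟩ := exists_linearIndependent' k V
  haveI : Finite κ := Finite.of_injective a ha
  haveI : Fintype κ := Fintype.ofFinite κ
  set lam : Fin e → k := fun j => if j ∈ Set.range a then 1 else 0 with hlam
  have hdet : (Matrix.of fun s t => ∑ j, lam j * algebraMap k k (V j s * V j t)).det = 0 := by
    rw [gram_expand]
    apply Finset.sum_eq_zero
    intro J hJ
    rw [hcon J hJ, map_zero, zero_mul]
  obtain ⟨c, hc0, hc⟩ := Matrix.exists_mulVec_eq_zero_iff.2 hdet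
  apply hc0
  apply hV
  have h1 : ∑ x : κ, (∑ t, c t * V (a x) t) • V (a x) = 0 := by
    funext s
    have h2 := congrFun hc s
    simp only [Matrix.mulVec, dotProduct, Matrix.of_apply, Pi.zero_apply] at h2
    rw [Finset.sum_apply]
    simp only [Pi.smul_apply, smul_eq_mul, Pi.zero_apply]
    rw [← h2]
    have h3 : ∀ t, (∑ j, lam j * algebraMap k k (V j s * V j t)) * c t
        = ∑ j, lam j * (V j s * V j t * c t) := by
      intro t
      rw [Finset.sum_mul]
      apply Finset.sum_congr rfl
      intro j _
      simp only [Algebra.algebraMap_self, RingHom.id_apply]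
      ring
    simp only [h3]
    rw [Finset.sum_comm]
    have h4 : ∀ j, ∑ t, lam j * (V j s * V j t * c t)
        = lam j * ((∑ t, c t * V j t) * V j s) := by
      intro j
      rw [← Finset.mul_sum, Finset.sum_mul]
      congr 1
      apply Finset.sum_congr rfl
      intro t _
      ring
    simp only [h4]
    have h5 : ∑ j, lam j * ((∑ t, c t * V j t) * V j s)
        = ∑ j ∈ univ.filter (fun j => j ∈ Set.range a), ((∑ t, c t * V j t) * V j s) := by
      rw [Finset.sum_filter]
      apply Finset.sum_congr rfl
      intro j _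
      simp only [hlam]
      split_ifs <;> simp
    rw [h5]
    have h6 : univ.filter (fun j => j ∈ Set.range a) = univ.image a := by
      ext j
      simp
    rw [h6, Finset.sum_image (fun x _ y _ hxy => ha hxy)]
  rw [Fintype.linearIndependent_iff] at hli
  have h7 := hli _ h1
  intro j
  have h8 : V j ∈ Submodule.span k (Set.range (V ∘ a)) := by
    rw [hspan]
    exact Submodule.subset_span ⟨j, rfl⟩
  have h9 : ∀ u ∈ Submodule.span k (Set.range (V ∘ a)), ∑ s, c s * u s = 0 := by
    intro u hu
    induction hu using Submodule.span_induction with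
    | mem x hx =>
      obtain ⟨y, rfl⟩ := hx
      exact h7 y
    | zero => simp
    | add x y _ _ hx hy =>
      simp only [Pi.add_apply, mul_add, Finset.sum_add_distrib, hx, hy, add_zero]
    | smul r x _ hx =>
      simp only [Pi.smul_apply, smul_eq_mul]
      have : ∑ s, c s * (r * x s) = r * ∑ s, c s * x s := by
        rw [Finset.mul_sum]
        apply Finset.sum_congr rfl
        intro s _
        ring
      rw [this, hx, mul_zero]
  exact h9 _ h8

end expand

variable {k : Type*} [Field k] [CharZero k]

theorem gram_det_ne_zero {e h N : ℕ} (α : Fin e → k) (hα : Function.Injective α)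
    (w : Fin e → k) (hw : ∀ j, w j ≠ 0) (V : Fin e → Fin h → k)
    (hV : ∀ c : Fin h → k, (∀ j, ∑ s, c s * V j s = 0) → c = 0)
    (hN : (e.choose h - 1) ^ 2 ≤ N) :
    (Matrix.of fun s t => ∑ j, (C (w j) * (X + C (α j)) ^ N) *
      algebraMap k k[X] (V j s * V j t)).det ≠ 0 := by
  classical
  rw [gram_expand V (fun j => C (w j) * (X + C (α j)) ^ N)]
  obtain ⟨J0, hJ0, hq0⟩ := exists_qcoef_ne_zero V hV
  set T := (powersetCard h (univ : Finset (Fin e))).filter (fun J => qcoef V J ≠ 0) with hT
  have hTpos : 0 < T.card := Finset.card_pos.2 ⟨J0, Finset.mem_filter.2 ⟨hJ0, hq0⟩⟩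
  have hTle : T.card ≤ e.choose h := by
    refine (Finset.card_filter_le _ _).trans ?_
    rw [Finset.card_powersetCard]
    simp
  have key := pi_lemma α hα N T.card T rfl hTpos h
    (fun J hJ => (Finset.mem_powersetCard.1 (Finset.mem_filter.1 hJ).1).2)
    (le_trans (Nat.pow_le_pow_left (by omega) 2) hN)
    (fun J => qcoef V J * ∏ j ∈ J, w j)
    (fun J hJ => mul_ne_zero (Finset.mem_filter.1 hJ).2
      (Finset.prod_ne_zero_iff.2 (fun j _ => hw j)))
  intro h0
  apply key
  rw [← h0, hT, Finset.sum_filter]
  apply Finset.sum_congr rfl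
  intro J _
  split_ifs with hq
  · rw [Finset.prod_mul_distrib, Finset.prod_pow, C_mul, map_prod, G, algebraMap_eq]
    ring
  · rw [not_not] at hq
    rw [hq, map_zero, zero_mul]

end Pool.Agent.W515.SLP
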