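import Pool.Agent.W515.SLP.Wron

/-!
Linear independence of high powers of distinct squarefree products of linear forms.
-/

open Polynomial Finset

namespace Pool.Agent.W515.SLP

set_option linter.unusedSectionVars false

variable {k : Type*} [Field k] [CharZero k]

/-- the product of the linear forms indexed by `J` -/
noncomputable def G {e : ℕ} (α : Fin e → k) (J : Finset (Fin e)) : k[X] :=
  ∏ j ∈ J, (X + C (α j))

lemma G_ne_zero {e : ℕ} (α : Fin e → k) (J : Finset (Fin e)) : G α J ≠ 0 := by
  rw [G, Finset.prod_ne_zero_iff]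
  intro j _
  exact X_add_C_ne_zero _

lemma natDegree_G {e : ℕ} (α : Fin e → k) (J : Finset (Fin e)) :
    (G α J).natDegree = J.card := by
  rw [G, natDegree_prod _ _ (fun j _ => X_add_C_ne_zero _)]
  simp

lemma dvd_G {e : ℕ} (α : Fin e → k) (J : Finset (Fin e)) (j : Fin e) (hj : j ∈ J) :
    (X + C (α j)) ∣ G α J := Finset.dvd_prod_of_mem _ hj

lemma wr_main {m e h N : ℕ} (α : Fin e → k) (hα : Function.Injective α)
    (J : Fin (m + 1) → Finset (Fin e)) (hJ : ∀ i, (J i).card = h) (c : Fin (m + 1) → k)
    (hc : ∀ i, c i ≠ 0) (hrel : ∑ i, C (c i) * (G α (J i)) ^ N = 0)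
    (hind : LinearIndependent k (fun i : Fin m => (G α (J i.succ)) ^ N))
    (hcom : ∀ j, ∃ i, j ∉ J i) : (m + 1) * h * (N - (m - 1)) ≤ m * (N * h) := by
  classical
  set f : Fin m → k[X] := fun i => (G α (J i.succ)) ^ N with hf
  have hW := wmat_det_ne_zero f hind
  set t : Fin e → ℕ := fun j => (univ.filter (fun i => j ∈ J i)).card with ht
  have hdiv : ∀ j, (X + C (α j)) ^ (t j * (N - (m - 1))) ∣ (wmat f).det := by
    intro j
    by_cases h0 : j ∈ J 0
    · obtain ⟨i, hi⟩ := hcom j
      obtain ⟨i', rfl⟩ : ∃ i', i = Fin.succ i' := by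
        rcases Fin.eq_zero_or_eq_succ i with h1 | h1
        · subst h1; exact absurd h0 hi
        · exact h1
      have h2 := wmat_update f (fun i => c i.succ) i'
      have h3 : ∑ j, C (c (Fin.succ j)) * f j = - (C (c 0) * (G α (J 0)) ^ N) := by
        rw [Fin.sum_univ_succ] at hrel
        linear_combination hrel
      rw [h3] at h2
      have h4 : (X + C (α j)) ^ (t j * (N - (m - 1))) ∣
          (wmat (Function.update f i' (-(C (c 0) * G α (J 0) ^ N)))).det := by
        have h5 : t j = (insert i' (univ.filter (fun i : Fin m => j ∈ J i.succ))).card := by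
          rw [Finset.card_insert_of_notMem (by simpa using hi)]
          simp only [ht]
          rw [Fin.univ_succ, Finset.filter_cons_of_pos (p := fun i => j ∈ J i) _ _ _ h0,
            Finset.card_cons, Finset.filter_map, Finset.card_map]
          rfl
        rw [h5]
        apply pow_dvd_wmat_det
        intro i hi2
        rw [Finset.mem_insert] at hi2
        rcases hi2 with rfl | hi2
        · rw [Function.update_self]
          exact (dvd_neg).2 (Dvd.dvd.mul_left (pow_dvd_pow_of_dvd (dvd_G α _ _ h0) N) _)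
        · have hne : i ≠ i' := by
            rintro rfl
            exact hi (by simpa using hi2)
          rw [Function.update_of_ne hne]
          exact pow_dvd_pow_of_dvd (dvd_G α _ _ (by simpa using hi2)) N
      rw [h2] at h4
      have hu : IsUnit (C (c i'.succ) : k[X]) := isUnit_C.2 (isUnit_iff_ne_zero.2 (hc _))
      exact (hu.dvd_mul_left).1 h4
    · have h5 : t j = (univ.filter (fun i : Fin m => j ∈ J i.succ)).card := by
        simp only [ht]
        rw [Fin.univ_succ, Finset.filter_cons_of_neg (p := fun i => j ∈ J i) _ _ _ h0,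
          Finset.filter_map, Finset.card_map]
        rfl
      rw [h5]
      apply pow_dvd_wmat_det
      intro i hi2
      exact pow_dvd_pow_of_dvd (dvd_G α _ _ (by simpa using hi2)) N
  have hprod : ∏ j, (X + C (α j)) ^ (t j * (N - (m - 1))) ∣ (wmat f).det := by
    apply Finset.prod_dvd_of_coprime
    · intro a _ b _ hab
      apply IsCoprime.pow
      have := pairwise_coprime_X_sub_C (K := k) (s := fun j => - α j)
        (fun x y hxy => hα (neg_injective hxy)) hab
      simpa using this
    · intro j _
      exact hdiv j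
  have hdeg := natDegree_le_of_dvd hprod hW
  have hdW := natDegree_wmat_det_le f (N * h) (by
    intro j
    simp only [hf]
    rw [natDegree_pow, natDegree_G, hJ])
  refine le_trans (le_of_eq ?_) (hdeg.trans hdW)
  rw [natDegree_prod _ _ (fun j _ => pow_ne_zero _ (X_add_C_ne_zero _))]
  simp only [natDegree_pow, natDegree_X_add_C, mul_one]
  rw [← Finset.sum_mul]
  congr 1
  have h7 : ∑ j, t j = ∑ i, (J i).card := by
    simp only [ht, Finset.card_filter]
    rw [Finset.sum_comm]
    apply Finset.sum_congr rfl
    intro i _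
    rw [← Finset.card_filter]
    simp
  rw [h7]
  simp [hJ]

theorem pi_lemma {e : ℕ} (α : Fin e → k) (hα : Function.Injective α) (N : ℕ) :
    ∀ r : ℕ, ∀ T : Finset (Finset (Fin e)), T.card = r → 0 < r → ∀ h : ℕ,
      (∀ J ∈ T, J.card = h) → (r - 1) ^ 2 ≤ N → ∀ c : Finset (Fin e) → k,
      (∀ J ∈ T, c J ≠ 0) → ∑ J ∈ T, C (c J) * (G α J) ^ N ≠ 0 := by
  classical
  intro r
  induction r using Nat.strong_induction_on with
  | _ r ih =>
  intro T hT hr h hh hN c hc hrel
  obtain ⟨m, rfl⟩ : ∃ m, r = m + 1 := ⟨r - 1, by omega⟩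
  -- enumerate
  let eqv : Fin (m + 1) ≃ T := (T.equivFinOfCardEq hT).symm
  set J : Fin (m + 1) → Finset (Fin e) := fun i => (eqv i : Finset (Fin e)) with hJdef
  have hJinj : Function.Injective J := fun a b hab => eqv.injective (Subtype.ext hab)
  have hJT : ∀ i, J i ∈ T := fun i => (eqv i).2
  have hrel2 : ∑ i, C (c (J i)) * (G α (J i)) ^ N = 0 := by
    rw [← hrel, ← Finset.sum_coe_sort T]
    exact Equiv.sum_comp eqv (fun x : T => C (c x) * (G α x) ^ N)
  have hind : LinearIndependent k (fun i : Fin m => (G α (J i.succ)) ^ N) := by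
    rw [Fintype.linearIndependent_iff]
    intro a ha i0
    by_contra hi0
    set S : Finset (Fin m) := univ.filter (fun i => a i ≠ 0) with hS
    have hSpos : 0 < S.card := Finset.card_pos.2 ⟨i0, by simp [hS, hi0]⟩
    have hSle : S.card ≤ m := (Finset.card_le_univ _).trans (by simp)
    set T' : Finset (Finset (Fin e)) := S.image (fun i => J i.succ) with hT'
    have hinj : Function.Injective (fun i : Fin m => J i.succ) := fun a b hab =>
      Fin.succ_injective _ (hJinj hab)
    have hT'c : T'.card = S.card := Finset.card_image_of_injective _ hinj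
    set c' : Finset (Fin e) → k := fun I => ∑ i ∈ S.filter (fun i => J i.succ = I), a i with hc'
    have hc'J : ∀ i ∈ S, c' (J i.succ) = a i := by
      intro i hi
      simp only [hc']
      rw [Finset.sum_eq_single i]
      · intro b hb hbi
        exact absurd (hinj (Finset.mem_filter.1 hb).2) hbi
      · intro hni
        exact absurd (by rw [Finset.mem_filter]; exact ⟨hi, rfl⟩) hni
    refine ih S.card (by omega) T' hT'c hSpos h ?_ ?_ c' ?_ ?_
    · intro I hI
      rw [hT', Finset.mem_image] at hI
      obtain ⟨i, _, rfl⟩ := hI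
      exact hh _ (hJT _)
    · refine le_trans ?_ hN
      exact Nat.pow_le_pow_left (by omega) 2
    · intro I hI
      rw [hT', Finset.mem_image] at hI
      obtain ⟨i, hi, rfl⟩ := hI
      have h9 := hc'J i hi
      rw [h9]
      exact (Finset.mem_filter.1 hi).2
    · rw [hT', Finset.sum_image (fun a _ b _ hab => hinj hab)]
      rw [← ha]
      rw [← Finset.sum_filter_add_sum_filter_not univ (fun i => a i ≠ 0)]
      have h8 : ∑ x with ¬ a x ≠ 0, a x • G α (J x.succ) ^ N = 0 := by
        apply Finset.sum_eq_zero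
        intro x hx
        rw [Finset.mem_filter, not_not] at hx
        rw [hx.2, zero_smul]
      rw [h8, add_zero]
      apply Finset.sum_congr rfl
      intro i hi
      rw [hc'J i hi, smul_eq_C_mul]
  -- common part
  set Cm : Finset (Fin e) := univ.filter (fun j => ∀ i, j ∈ J i) with hCm
  have hCmJ : ∀ i, Cm ⊆ J i := fun i j hj => (Finset.mem_filter.1 hj).2 i
  set J' : Fin (m + 1) → Finset (Fin e) := fun i => J i \ Cm with hJ'
  have hGJ : ∀ i, G α (J i) = G α (J' i) * G α Cm := by
    intro i
    simp only [G, hJ']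
    exact (Finset.prod_sdiff (hCmJ i)).symm
  have hCm0 : G α Cm ^ N ≠ 0 := pow_ne_zero _ (G_ne_zero _ _)
  have hrel3 : ∑ i, C (c (J i)) * (G α (J' i)) ^ N = 0 := by
    have : (∑ i, C (c (J i)) * (G α (J' i)) ^ N) * G α Cm ^ N = 0 := by
      rw [Finset.sum_mul, ← hrel2]
      apply Finset.sum_congr rfl
      intro i _
      rw [hGJ i, mul_pow]; ring
    exact (mul_eq_zero.1 this).resolve_right hCm0
  have hind3 : LinearIndependent k (fun i : Fin m => (G α (J' i.succ)) ^ N) := by
    rw [Fintype.linearIndependent_iff]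
    intro a ha
    rw [Fintype.linearIndependent_iff] at hind
    apply hind a
    calc ∑ i, a i • G α (J (Fin.succ i)) ^ N = (∑ i, a i • G α (J' (Fin.succ i)) ^ N) * G α Cm ^ N := by
          rw [Finset.sum_mul]
          apply Finset.sum_congr rfl
          intro i _
          rw [hGJ, mul_pow, smul_mul_assoc]
      _ = 0 := by rw [ha, zero_mul]
  have hcom : ∀ j, ∃ i, j ∉ J' i := by
    intro j
    by_contra hcon
    push Not at hcon
    have h1 : j ∈ Cm := by
      rw [hCm, Finset.mem_filter]
      exact ⟨Finset.mem_univ _, fun i => (Finset.mem_sdiff.1 (hcon i)).1⟩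
    exact (Finset.mem_sdiff.1 (hcon 0)).2 h1
  have hJ'c : ∀ i, (J' i).card = h - Cm.card := by
    intro i
    rw [hJ', Finset.card_sdiff_of_subset (hCmJ i), hh _ (hJT i)]
  have hmain := wr_main α hα J' hJ'c (fun i => c (J i)) (fun i => hc _ (hJT i)) hrel3 hind3 hcom
  rcases Nat.eq_zero_or_pos m with rfl | hm
  · -- single term
    rw [Fin.sum_univ_one] at hrel3
    rcases mul_eq_zero.1 hrel3 with h1 | h1
    · rw [C_eq_zero] at h1
      exact hc _ (hJT _) h1
    · exact pow_ne_zero _ (G_ne_zero _ _) h1
  · have hpos : 0 < h - Cm.card := by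
      by_contra hcon
      have h0 : h - Cm.card = 0 := by omega
      have h1 : J' ⟨0, by omega⟩ = J' ⟨1, by omega⟩ := by
        have a1 := hJ'c ⟨0, by omega⟩
        have a2 := hJ'c ⟨1, by omega⟩
        rw [h0, Finset.card_eq_zero] at a1 a2
        rw [a1, a2]
      have h2 : J ⟨0, by omega⟩ = J ⟨1, by omega⟩ := by
        have b1 := Finset.sdiff_union_of_subset (hCmJ ⟨0, by omega⟩)
        have b2 := Finset.sdiff_union_of_subset (hCmJ ⟨1, by omega⟩)
        simp only [hJ'] at h1
        rw [← b1, ← b2, h1]
      have h3 := hJinj h2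
      simp at h3
    set q := h - Cm.card with hq
    have h4 : (m + 1) * (N - (m - 1)) ≤ m * N := by
      have : q * ((m + 1) * (N - (m - 1))) ≤ q * (m * N) := by nlinarith [hmain]
      exact Nat.le_of_mul_le_mul_left this hpos
    have hN2 : m ^ 2 ≤ N := by simpa using hN
    obtain ⟨M, hM⟩ : ∃ M, N = M + (m - 1) := ⟨N - (m - 1), by
      have h10 : m ≤ m ^ 2 := Nat.le_self_pow (by norm_num) m
      omega⟩
    have hmm : m = (m - 1) + 1 := by omega
    set m' := m - 1 with hm'
    rw [hM] at h4 hN2
    rw [hmm] at h4 hN2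
    simp only [Nat.add_sub_cancel] at h4
    nlinarith
end Pool.Agent.W515.SLP
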