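import Mathlib

/-!
Univariate Wronskians over a field of characteristic zero, and linear independence of high
powers of products of distinct linear forms.
-/

open Polynomial Finset

namespace Pool.Agent.W515.SLP

set_option linter.unusedSectionVars false

variable {k : Type*} [Field k] [CharZero k]

lemma ratio_const (f g : k[X]) (hg : g ≠ 0) (h : g * derivative f = f * derivative g) :
    ∃ c : k, f = C c * g := by
  classical
  set d := EuclideanDomain.gcd f g with hd
  have hd0 : d ≠ 0 := by
    intro h0
    exact hg (EuclideanDomain.gcd_eq_zero_iff.1 h0).2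
  obtain ⟨f1, hf1⟩ := EuclideanDomain.gcd_dvd_left f g
  obtain ⟨g1, hg1⟩ := EuclideanDomain.gcd_dvd_right f g
  rw [← hd] at hf1 hg1
  have hcop : IsCoprime f1 g1 := by
    obtain ⟨a, b, hab⟩ : ∃ a b, d = f * a + g * b :=
      ⟨_, _, EuclideanDomain.gcd_eq_gcd_ab f g⟩
    refine ⟨a, b, ?_⟩
    have : d * (a * f1 + b * g1) = d * 1 := by
      rw [mul_one]
      calc d * (a * f1 + b * g1) = (d * f1) * a + (d * g1) * b := by ring
        _ = f * a + g * b := by rw [← hf1, ← hg1]
        _ = d := hab.symm
    exact mul_left_cancel₀ hd0 this
  have hw : wronskian f1 g1 = 0 := by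
    have h2 : d ^ 2 * wronskian f1 g1 = 0 := by
      have h3 : f * derivative g - derivative f * g = 0 := by rw [← h]; ring
      rw [hf1, hg1] at h3
      simp only [derivative_mul] at h3
      unfold wronskian
      linear_combination h3
    rcases mul_eq_zero.1 h2 with h3 | h3
    · exact absurd (pow_eq_zero_iff (two_ne_zero)|>.1 h3) hd0
    · exact h3
  have hw2 := (IsCoprime.wronskian_eq_zero_iff hcop).1 hw
  have hf2 := Polynomial.derivative_eq_zero.1 hw2.1
  have hg2 := Polynomial.derivative_eq_zero.1 hw2.2
  rw [natDegree_eq_zero] at hf2 hg2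
  obtain ⟨x, hx⟩ := hf2
  obtain ⟨y, hy⟩ := hg2
  have hy0 : y ≠ 0 := by
    rintro rfl
    apply hg
    rw [hg1, ← hy]; simp
  refine ⟨x / y, ?_⟩
  rw [hf1, hg1, ← hx, ← hy]
  have : C (x / y) * C y = (C x : k[X]) := by
    rw [← C_mul, div_mul_cancel₀ _ hy0]
  rw [← this]; ring

open Classical in
lemma dep_of_rel {r : ℕ} (f : Fin r → k[X]) : ∀ s : ℕ, ∀ v : Fin r → k[X], v ≠ 0 →
    (univ.filter (fun j => v j ≠ 0)).card ≤ s →
    (∀ i < s, ∑ j, v j * derivative^[i] (f j) = 0) → ¬ LinearIndependent k f := by
  intro s
  induction s with
  | zero =>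
    intro v hv hcard _
    exfalso
    apply hv
    have h0 : (univ.filter (fun j => v j ≠ 0)) = ∅ := Finset.card_eq_zero.1 (Nat.le_zero.1 hcard)
    funext j
    by_contra hj
    have : j ∈ (univ.filter (fun j => v j ≠ 0)) := by
      rw [Finset.mem_filter]; exact ⟨Finset.mem_univ _, hj⟩
    rw [h0] at this
    exact absurd this (Finset.notMem_empty _)
  | succ s ih =>
    intro v hv hcard hrel
    obtain ⟨j0, hj0⟩ : ∃ j0, v j0 ≠ 0 := by
      by_contra hcon
      push Not at hcon
      exact hv (funext hcon)
    set v' : Fin r → k[X] := fun j => v j0 * derivative (v j) - v j * derivative (v j0) with hv'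
    by_cases hz : v' = 0
    · have h1 : ∀ j, ∃ c : k, v j = C c * v j0 := by
        intro j
        apply ratio_const _ _ hj0
        have := congrFun hz j
        simp only [hv', Pi.zero_apply] at this
        linear_combination this
      choose c hc using h1
      have hc0 : c j0 = 1 := by
        have := hc j0
        have h2 : (C (c j0) - 1) * v j0 = 0 := by linear_combination -this
        rcases mul_eq_zero.1 h2 with h3 | h3
        · have h4 : C (c j0) = (C 1 : k[X]) := by rw [C_1]; linear_combination h3
          exact C_injective h4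
        · exact absurd h3 hj0
      intro hli
      rw [Fintype.linearIndependent_iff] at hli
      have h2 : ∑ j, c j • f j = 0 := by
        have h3 := hrel 0 (Nat.succ_pos s)
        simp only [Function.iterate_zero, id_eq] at h3
        have h4 : v j0 * ∑ j, c j • f j = 0 := by
          rw [← h3, Finset.mul_sum]
          apply Finset.sum_congr rfl
          intro j _
          conv_rhs => rw [hc j]
          rw [smul_eq_C_mul]; ring
        rcases mul_eq_zero.1 h4 with h5 | h5
        · exact absurd h5 hj0
        · exact h5
      have := hli c h2 j0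
      rw [hc0] at this
      exact one_ne_zero this
    · apply ih v' hz
      · have hsub : (univ.filter (fun j => v' j ≠ 0)) ⊆ (univ.filter (fun j => v j ≠ 0)).erase j0 := by
          intro j hj
          rw [Finset.mem_filter] at hj
          rw [Finset.mem_erase, Finset.mem_filter]
          refine ⟨?_, Finset.mem_univ _, ?_⟩
          · rintro rfl
            apply hj.2
            simp only [hv']; ring
          · intro h0
            apply hj.2
            simp only [hv', h0]; simp
        have h1 := Finset.card_le_card hsub
        rw [Finset.card_erase_of_mem (by rw [Finset.mem_filter]; exact ⟨Finset.mem_univ _, hj0⟩)] at h1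
        omega
      · intro i hi
        have e1 := hrel i (by omega)
        have e2 := hrel (i + 1) (by omega)
        have e3 : derivative (∑ j, v j * derivative^[i] (f j)) = 0 := by rw [e1, derivative_zero]
        rw [derivative_sum] at e3
        simp only [derivative_mul, Finset.sum_add_distrib] at e3
        have e4 : ∑ j, v j * derivative (derivative^[i] (f j)) = 0 := by
          rw [← e2]
          apply Finset.sum_congr rfl
          intro j _
          rw [Function.iterate_succ_apply']
        rw [e4, add_zero] at e3
        have e5 : ∑ j, v' j * derivative^[i] (f j)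
            = v j0 * ∑ j, derivative (v j) * derivative^[i] (f j)
              - derivative (v j0) * ∑ j, v j * derivative^[i] (f j) := by
          rw [Finset.mul_sum, Finset.mul_sum, ← Finset.sum_sub_distrib]
          apply Finset.sum_congr rfl
          intro j _
          simp only [hv']; ring
        rw [e5, e3, e1]; ring

/-- Wronskian matrix -/
noncomputable def wmat {R : Type*} [CommRing R] {r : ℕ} (f : Fin r → R[X]) :
    Matrix (Fin r) (Fin r) R[X] :=
  Matrix.of fun i j => derivative^[(i : ℕ)] (f j)

open Classical in
lemma wmat_det_ne_zero {r : ℕ} (f : Fin r → k[X]) (hf : LinearIndependent k f) :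
    (wmat f).det ≠ 0 := by
  intro h0
  obtain ⟨v, hv0, hv⟩ := Matrix.exists_mulVec_eq_zero_iff.2 h0
  refine dep_of_rel f r v hv0 ?_ ?_ hf
  · refine (Finset.card_le_univ _).trans ?_
    simp
  · intro i hi
    have := congrFun hv ⟨i, hi⟩
    simp only [Matrix.mulVec, dotProduct, wmat, Matrix.of_apply, Pi.zero_apply] at this
    rw [← this]
    apply Finset.sum_congr rfl
    intro j _
    ring

/-- replace one column of a Wronskian by a linear combination -/
lemma wmat_update {r : ℕ} (f : Fin r → k[X]) (c : Fin r → k) (j0 : Fin r) :
    (wmat (Function.update f j0 (∑ j, C (c j) * f j))).det = C (c j0) * (wmat f).det := by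
  have h0 : wmat (Function.update f j0 (∑ j, C (c j) * f j))
      = (wmat f).updateCol j0 (fun i => ∑ j, C (c j) • (wmat f) i j) := by
    ext1 i j
    rw [Matrix.updateCol_apply]
    by_cases hj : j = j0
    · subst hj
      simp only [wmat, Matrix.of_apply, Function.update_self, if_true]
      rw [iterate_derivative_sum]
      apply Finset.sum_congr rfl
      intro j _
      rw [iterate_derivative_C_mul, smul_eq_mul]
    · simp only [wmat, Matrix.of_apply, Function.update_of_ne hj, hj, if_false]
  rw [h0]
  exact Matrix.det_updateCol_sum (wmat f) j0 (fun j => C (c j))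

/-- divisibility of a Wronskian by powers -/
lemma pow_dvd_wmat_det {r : ℕ} (f : Fin r → k[X]) (q : k[X]) (N : ℕ) (S : Finset (Fin r))
    (hS : ∀ j ∈ S, q ^ N ∣ f j) : q ^ (S.card * (N - (r - 1))) ∣ (wmat f).det := by
  rw [Matrix.det_apply]
  apply Finset.dvd_sum
  intro σ _
  have h6 : q ^ (S.card * (N - (r - 1))) ∣ ∏ i, (wmat f) (σ i) i := by
    refine dvd_trans ?_ (Finset.prod_dvd_prod_of_subset S univ _ (Finset.subset_univ _))
    rw [mul_comm, pow_mul, ← Finset.prod_const]
    apply Finset.prod_dvd_prod_of_dvd
    intro j hj
    simp only [wmat, Matrix.of_apply]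
    refine dvd_trans ?_ (pow_sub_dvd_iterate_derivative_of_pow_dvd ((σ j : Fin r) : ℕ) (hS j hj))
    apply pow_dvd_pow
    have := (σ j).2
    omega
  rcases Int.units_eq_one_or (Equiv.Perm.sign σ) with h | h
  · rw [h, one_smul]; exact h6
  · rw [h]
    simpa using h6

lemma natDegree_wmat_det_le {r : ℕ} (f : Fin r → k[X]) (d : ℕ) (hd : ∀ j, (f j).natDegree ≤ d) :
    (wmat f).det.natDegree ≤ r * d := by
  rw [Matrix.det_apply]
  refine natDegree_sum_le_of_forall_le _ _ ?_
  intro σ _
  have h6 : (∏ i, (wmat f) (σ i) i).natDegree ≤ r * d := by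
    refine (natDegree_prod_le _ _).trans ?_
    refine (Finset.sum_le_card_nsmul _ _ d ?_).trans ?_
    · intro j _
      simp only [wmat, Matrix.of_apply]
      exact (natDegree_iterate_derivative _ _).trans ((Nat.sub_le _ _).trans (hd j))
    · simp
  rcases Int.units_eq_one_or (Equiv.Perm.sign σ) with h | h
  · rw [h, one_smul]; exact h6
  · rw [h]
    simpa using h6

end Pool.Agent.W515.SLP
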